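import Pool.Agent.MP_0cba1e_an.Greatest
import Pool.Agent.MP_0cba1e_an.DimOne

/-!
Full answer, for every dimension: over `ℤ^d` there is an infinite chain of shifts, starting at a
shift of finite type, in which each term is the unique maximal subsystem of the preceding one, if
and only if `d ≥ 2`; and for `d ≥ 2` the chain can be chosen so that each term even contains every
subsystem of the preceding one.
-/

namespace Pool.Agent.Results.MP_0cba1e_an.ChainInEachDim

open Pool.Agent.MP_0cba1e_an

theorem result (d : ℕ) :
    (HasInfiniteChain (Fin d → ℤ) ↔ 2 ≤ d) ∧ (HasGreatestChain (Fin d → ℤ) ↔ 2 ≤ d) := by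
  have h1 : HasInfiniteChain (Fin d → ℤ) → 2 ≤ d := by
    intro h
    by_contra hd
    push Not at hd
    interval_cases d
    · exact not_hasInfiniteChain_zero h
    · exact not_hasInfiniteChain_one h
  exact ⟨⟨h1, fun hd => (hasGreatestChain_of_two_le hd).hasInfiniteChain⟩,
    ⟨fun h => h1 h.hasInfiniteChain, hasGreatestChain_of_two_le⟩⟩

end Pool.Agent.Results.MP_0cba1e_an.ChainInEachDim
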